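import Pool.Agent.X283.BRG.Bfs

set_option autoImplicit false

namespace Pool.Agent.X283.BRG

open SimpleGraph

universe u

variable {V : Type u} {G : SimpleGraph V}

theorem reach_fun {c : ℕ → V} (h : ∀ i, G.Adj (c i) (c (i + 1))) {i j : ℕ} (hij : i ≤ j) :
    G.Reachable (c i) (c j) := by
  obtain ⟨k, rfl⟩ := Nat.exists_eq_add_of_le hij
  induction k with
  | zero => exact Reachable.refl _
  | succ k ih => exact (ih (by omega)).trans (h (i + k)).reachable

theorem comp_dist (C : G.ConnectedComponent) (a b : C) :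
    C.toSimpleGraph.dist a b ≤ G.dist a.1 b.1 := by
  have hr : G.Reachable a.1 b.1 := ConnectedComponent.exact
    ((ConnectedComponent.mem_supp_iff _ _).1 a.2 |>.trans
      ((ConnectedComponent.mem_supp_iff _ _).1 b.2).symm)
  obtain ⟨w, hw⟩ := hr.exists_walk_length_eq_dist
  have hm : ∀ i, w.getVert i ∈ C := by
    intro i
    have h1 : G.Reachable a.1 (w.getVert i) := (w.take i).reachable
    change G.connectedComponentMk (w.getVert i) = C
    rw [← ConnectedComponent.sound h1]
    exact a.2
  have key := dist_le_fun (G := C.toSimpleGraph) (n := w.length)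
    (c := fun i => ⟨w.getVert i, hm i⟩) (fun i hi => w.adj_getVert_succ hi) (Nat.zero_le _) le_rfl
  have e0 : (⟨w.getVert 0, hm 0⟩ : C) = a := Subtype.ext (by simp)
  have e1 : (⟨w.getVert w.length, hm w.length⟩ : C) = b := Subtype.ext (by simp)
  rw [e0, e1] at key
  omega

theorem comp_SC (hs : SC G) (C : G.ConnectedComponent) : SC C.toSimpleGraph := by
  intro n c hn hadj h0 hinj
  obtain ⟨i, j, hij, hj, hd⟩ := hs n (fun i => (c i).1) hn (fun i hi => hadj i hi)
    (congrArg Subtype.val h0) (fun i hi j hj h => hinj i hi j hj (Subtype.ext h))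
  exact ⟨i, j, hij, hj, lt_of_le_of_lt (comp_dist C _ _) hd⟩

/-- Gluing of the components. -/
theorem glue (F : ∀ C : G.ConnectedComponent, Set C)
    (hF : ∀ C : G.ConnectedComponent, SC (C.toSimpleGraph.induce (F C))) (T : Set V)
    (hT : ∀ (C : G.ConnectedComponent) (v : V) (hv : v ∈ C), v ∈ T → (⟨v, hv⟩ : C) ∈ F C)
    (hT2 : ∀ (C : G.ConnectedComponent) (v : V), v ∈ C → v ∈ T → ∀ a ∈ F C, a.1 ∈ T) :
    SC (G.induce T) := by
  by_contra hcon
  obtain ⟨n, c, hn, hI⟩ := exists_isoCyc hcon
  obtain ⟨C, hC⟩ : ∃ C, C = G.connectedComponentMk (c 0).1 := ⟨_, rfl⟩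
  have hadj : ∀ i, G.Adj (c i).1 (c (i + 1)).1 := fun i => hI.adj i
  have hcomp : ∀ i, (c i).1 ∈ C := by
    intro i
    change G.connectedComponentMk (c i).1 = C
    rw [hC]
    exact ConnectedComponent.sound (reach_fun (c := fun i => (c i).1) hadj (Nat.zero_le i)).symm
  have hmem : ∀ i, (⟨(c i).1, hcomp i⟩ : C) ∈ F C := fun i => hT C _ _ (c i).2
  let c' : ℕ → ↥(F C) := fun i => ⟨⟨(c i).1, hcomp i⟩, hmem i⟩
  have hadj' : ∀ i, (C.toSimpleGraph.induce (F C)).Adj (c' i) (c' (i + 1)) :=
    fun i => hadj i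
  obtain ⟨i, j, hij, hj, hd⟩ := hF C n c' hn (fun i _ => hadj' i)
    (by
      have h0 : c (0 + n) = c 0 := hI.per 0
      rw [Nat.zero_add] at h0
      have h1 : (c n).1 = (c 0).1 := congrArg Subtype.val h0
      exact Subtype.ext (Subtype.ext h1))
    (by
      intro i hi j hj h
      have h1 : c i = c j := Subtype.ext (congrArg (fun x => x.1.1) h)
      rcases Nat.lt_trichotomy i j with h2 | h2 | h2
      · have := hI.dist_eq i j (by omega) (by omega)
        rw [h1, SimpleGraph.dist_self] at this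
        omega
      · exact h2
      · have := hI.dist_eq j i (by omega) (by omega)
        rw [h1, SimpleGraph.dist_self] at this
        omega)
  let f : ↥(F C) → ↥T := fun a => ⟨a.1.1, hT2 C (c 0).1 (hcomp 0) (c 0).2 a.1 a.2⟩
  have hle := hom_dist_le (H' := C.toSimpleGraph.induce (F C))
    (H := G.induce T) f (fun a b h => h) (reach_fun hadj' hij)
  have e1 : f (c' i) = c i := Subtype.ext rfl
  have e2 : f (c' j) = c j := Subtype.ext rfl
  rw [e1, e2] at hle
  have := hI.dist_eq i j hij (by omega)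
  omega

/-- **Every finite set of vertices of a bridged graph lies in a finite set that induces a bridged
graph.** -/
theorem main (hs : SC G) (S : Finset V) : ∃ T : Finset V, S ⊆ T ∧ SC (G.induce (T : Set V)) := by
  classical
  have hex : ∀ C : G.ConnectedComponent, ∃ F : Finset C, S.subtype (· ∈ C) ⊆ F ∧
      SC (C.toSimpleGraph.induce (F : Set C)) := fun C =>
    main_connected C.connected_toSimpleGraph (comp_SC hs C) _
  choose F hF1 hF2 using hex
  have key : ∀ (C : G.ConnectedComponent) (v : V), v ∈ C →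
      v ∈ (S.biUnion (fun s => (F (G.connectedComponentMk s)).map
        (Function.Embedding.subtype _))) → ∃ s ∈ S, G.connectedComponentMk s = C ∧
          ∃ a ∈ F C, a.1 = v := by
    intro C v hvC hv
    rw [Finset.mem_biUnion] at hv
    obtain ⟨s, hs, h1⟩ := hv
    rw [Finset.mem_map] at h1
    obtain ⟨a, ha, hai⟩ := h1
    have h2 : G.connectedComponentMk s = C := by
      have e1 : G.connectedComponentMk v = C := hvC
      have e2 : G.connectedComponentMk a.1 = G.connectedComponentMk s := a.2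
      rw [← e1, ← e2, ← hai]
      rfl
    subst h2
    exact ⟨s, hs, rfl, a, ha, hai⟩
  refine ⟨S.biUnion (fun s => (F (G.connectedComponentMk s)).map (Function.Embedding.subtype _)),
    ?_, glue (fun C => (F C : Set C)) hF2 _ ?_ ?_⟩
  · intro s hs
    rw [Finset.mem_biUnion]
    refine ⟨s, hs, ?_⟩
    rw [Finset.mem_map]
    refine ⟨⟨s, rfl⟩, hF1 _ ?_, rfl⟩
    rw [Finset.mem_subtype]
    exact hs
  · intro C v hvC hv
    obtain ⟨s, hs, h2, a, ha, hai⟩ := key C v hvC hv
    have : (⟨v, hvC⟩ : C) = a := Subtype.ext hai.symm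
    rw [this]
    exact ha
  · intro C v hvC hv a ha
    obtain ⟨s, hs, h2, -⟩ := key C v hvC hv
    subst h2
    rw [Finset.mem_coe, Finset.mem_biUnion]
    refine ⟨s, hs, ?_⟩
    rw [Finset.mem_map]
    exact ⟨a, ha, rfl⟩

end Pool.Agent.X283.BRG
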