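import Pool.Agent.X283.BRG.WM

set_option autoImplicit false

namespace Pool.Agent.X283.BRG

open SimpleGraph

universe u

variable {V : Type u}

theorem odd_step {G : SimpleGraph V} (hc : G.Connected) (hs : SC G) : ∀ i,
    (∀ k ≤ i, PA G k) → (∀ k ≤ i, PB G k) → ∀ v z1 z2 p q, G.Adj z1 z2 → G.dist v z1 = i →
    G.dist v z2 = i → G.Adj v p → G.Adj v q → G.dist p z1 + 1 = i → G.dist q z2 + 1 = i →
    p = q ∨ G.Adj p q := by
  intro i
  induction i with
  | zero => intro _ _ v z1 z2 p q _ _ _ _ _ h; omega
  | succ i ih =>
    intro hA hB v z1 z2 p q hz h1 h2 hp hq hp1 hq1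
    have hzero : ∀ {a b : V}, G.dist a b = 0 → a = b := fun h => (hc.dist_eq_zero_iff).1 h
    rcases Nat.eq_zero_or_pos i with h0 | hpos
    · subst h0
      have e1 : p = z1 := hzero (by omega)
      have e2 : q = z2 := hzero (by omega)
      subst e1; subst e2
      exact Or.inr hz
    · obtain ⟨w, hw1, hw2, hw⟩ := hB (i + 1) le_rfl v z1 z2 hz h1 h2
      have hvw : v ≠ w := by
        rintro rfl
        simp at hw
        omega
      obtain ⟨r, hvr, hr⟩ := toward hc hvw
      have t1 := d_adj hc hw1 r
      have t2 := d_adj hc hw2 r
      have t3 := d_adj hc hvr z1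
      have t4 := d_adj hc hvr z2
      rw [dist_comm (u := z1) (v := v), dist_comm (u := z1) (v := r)] at t3
      rw [dist_comm (u := z2) (v := v), dist_comm (u := z2) (v := r)] at t4
      have e1 : G.dist z1 v = G.dist v z1 := dist_comm
      have e2 : G.dist z1 p = G.dist p z1 := dist_comm
      have e3 : G.dist z1 r = G.dist r z1 := dist_comm
      have e4 : G.dist z2 v = G.dist v z2 := dist_comm
      have e5 : G.dist z2 q = G.dist q z2 := dist_comm
      have e6 : G.dist z2 r = G.dist r z2 := dist_comm
      have hpr := hA (i + 1) le_rfl z1 v p r hp hvr (by omega) (by omega) (by omega)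
      have hqr := hA (i + 1) le_rfl z2 v q r hq hvr (by omega) (by omega) (by omega)
      by_contra hcon
      push Not at hcon
      obtain ⟨hpq, hnpq⟩ := hcon
      rcases hpr with rfl | hpr
      · rcases hqr with rfl | hqr
        · exact hpq rfl
        · exact hnpq hqr.symm
      rcases hqr with rfl | hqr
      · exact hnpq hpr
      obtain ⟨s1, hs1p, hs1r, hs1⟩ := hB i (by omega) z1 p r hpr (by omega) (by omega)
      obtain ⟨s2, hs2q, hs2r, hs2⟩ := hB i (by omega) z2 q r hqr (by omega) (by omega)
      have f1 : G.dist z1 s1 = G.dist s1 z1 := dist_comm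
      have f2 : G.dist z2 s2 = G.dist s2 z2 := dist_comm
      have hss := ih (fun k hk => hA k (by omega)) (fun k hk => hB k (by omega)) r z1 z2 s1 s2 hz
        (by omega) (by omega) hs1r.symm hs2r.symm (by omega) (by omega)
      have nv1 : ¬ G.Adj v s1 := by
        intro h
        have := d_adj hc h z1
        omega
      have nv1' : v ≠ s1 := by
        rintro rfl
        omega
      have nv2 : ¬ G.Adj v s2 := by
        intro h
        have := d_adj hc h z2
        omega
      have nv2' : v ≠ s2 := by
        rintro rfl
        omega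
      -- adjacency of `p` and a common neighbour of `p`, `q` gives a four-cycle
      have four : ∀ s, v ≠ s → ¬ G.Adj v s → G.Adj s p → G.Adj s q → False := by
        intro s h1 h2 h3 h4
        rcases noC4 hs hp h3.symm h4 hq.symm h1 hpq with h | h
        · exact h2 h
        · exact hnpq h
      rcases hss with rfl | hss
      · exact four s1 nv1' nv1 hs1p hs2q
      · by_cases k1 : p = s2
        · subst k1
          exact nv2 hp
        by_cases k2 : s1 = q
        · subst k2
          exact nv1 hq
        rcases noC5 hs hp hs1p.symm hss hs2q hq.symm nv1' nv2' k1 hpq k2 with h | h | h | h | h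
        · exact nv1 h
        · exact nv2 h
        · exact four s2 nv2' nv2 h.symm hs2q
        · exact hnpq h
        · exact four s1 nv1' nv1 hs1p h

theorem geo {G : SimpleGraph V} (hc : G.Connected) (u z : V) : ∃ p : ℕ → V, p 0 = u ∧
    p (G.dist u z) = z ∧ (∀ i < G.dist u z, G.Adj (p i) (p (i + 1))) ∧
    (∀ i ≤ G.dist u z, G.dist u (p i) = i) ∧
    (∀ i ≤ G.dist u z, G.dist (p i) z + i = G.dist u z) := by
  obtain ⟨w, hw⟩ := hc.exists_walk_length_eq_dist u z
  have hadj : ∀ i < G.dist u z, G.Adj (w.getVert i) (w.getVert (i + 1)) := fun i hi =>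
    Walk.adj_getVert_succ _ (by omega)
  have h0 : w.getVert 0 = u := by simp
  have h1 : w.getVert (G.dist u z) = z := by rw [← hw]; simp
  have hb : ∀ i ≤ G.dist u z, G.dist u (w.getVert i) ≤ i ∧
      G.dist (w.getVert i) z ≤ G.dist u z - i := by
    intro i hi
    have a := dist_le_fun hadj (Nat.zero_le i) hi
    have b := dist_le_fun hadj hi le_rfl
    rw [h0] at a
    rw [h1] at b
    exact ⟨by omega, b⟩
  refine ⟨w.getVert, h0, h1, hadj, fun i hi => ?_, fun i hi => ?_⟩
  · have := hb i hi
    have t := hc.dist_triangle (u := u) (v := w.getVert i) (w := z)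
    omega
  · have := hb i hi
    have t := hc.dist_triangle (u := u) (v := w.getVert i) (w := z)
    omega

/-- A cycle with a top vertex. -/
theorem shortcutA {G : SimpleGraph V} (hc : G.Connected) (hs : SC G) {j : ℕ} (hj : 2 ≤ j)
    {u z a b : V} (hza : G.Adj z a) (hzb : G.Adj z b) (hz : G.dist u z = j)
    (ha : G.dist u a + 1 = j) (hb : G.dist u b + 1 = j)
    (hd : ∀ w, G.dist u w + G.dist w a = j - 1 → G.dist u w + G.dist w b = j - 1 → w = u) :
    ∃ x y, 1 ≤ G.dist u x ∧ 1 ≤ G.dist u y ∧ G.dist u x + G.dist x a = j - 1 ∧
      G.dist u y + G.dist y b = j - 1 ∧ G.dist x y < G.dist u x + G.dist u y ∧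
      G.dist x y + G.dist u x + G.dist u y < 2 * j := by
  obtain ⟨p, p0, pa, padj, pu, pz⟩ := geo hc u a
  obtain ⟨q, q0, qb, qadj, qu, qz⟩ := geo hc u b
  have la : G.dist u a = j - 1 := by omega
  have lb : G.dist u b = j - 1 := by omega
  rw [la] at pa padj pu pz
  rw [lb] at qb qadj qu qz
  let f : ℕ → V := fun i => if i < j then p i else if i = j then z else q (2 * j - i)
  have f1 : ∀ i, i < j → f i = p i := fun i hi => if_pos hi
  have f2 : f j = z := by simp [f]
  have f3 : ∀ i, j < i → f i = q (2 * j - i) := by
    intro i hi
    simp only [f]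
    rw [if_neg (by omega), if_neg (by omega)]
  have fh : ∀ i ≤ 2 * j, G.dist u (f i) = min i (2 * j - i) := by
    intro i hi
    rcases Nat.lt_trichotomy i j with h | h | h
    · rw [f1 i h, pu i (by omega)]; omega
    · subst h
      rw [f2]; omega
    · rw [f3 i h, qu _ (by omega)]; omega
  have same : ∀ i k, i < j → j < k → k < 2 * j → f i = f k → False := by
    intro i k hi hk hk2 h
    have h1 := fh i (by omega)
    have h2 := fh k (by omega)
    rw [h] at h1
    have e : 2 * j - k = i := by omega
    rw [f1 i hi, f3 k hk, e] at h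
    have := hd (p i) (by rw [pu i (by omega)]; have := pz i (by omega); omega)
      (by rw [pu i (by omega), h]; have := qz i (by omega); omega)
    have h3 := pu i (by omega)
    rw [this] at h3
    simp at h3
    omega
  obtain ⟨i, k, hik, hk, hdk⟩ := hs (2 * j) f (by omega) (by
      intro i hi
      rcases Nat.lt_trichotomy (i + 1) j with h | h | h
      · rw [f1 i (by omega), f1 (i + 1) h]
        exact padj i (by omega)
      · rw [f1 i (by omega), h, f2]
        have e : i = j - 1 := by omega
        rw [e, pa]
        exact hza.symm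
      · rcases Nat.lt_or_ge j i with h' | h'
        · rw [f3 i h', f3 (i + 1) (by omega)]
          have := qadj (2 * j - (i + 1)) (by omega)
          have e : 2 * j - (i + 1) + 1 = 2 * j - i := by omega
          rw [e] at this
          exact this.symm
        · have e : i = j := by omega
          subst e
          rw [f2, f3 (i + 1) (by omega)]
          have e : 2 * i - (i + 1) = i - 1 := by omega
          rw [e, qb]
          exact hzb)
    (by
      rw [f3 _ (by omega), f1 0 (by omega), p0]
      simpa using q0)
    (by
      intro i hi k hk h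
      by_contra hne
      have h1 := fh i (by omega)
      have h2 := fh k (by omega)
      have h1' := h1
      rw [h] at h1
      rcases Nat.lt_trichotomy i j with a1 | a1 | a1
      · rcases Nat.lt_trichotomy k j with a2 | a2 | a2
        · omega
        · omega
        · exact same i k a1 a2 hk h
      · omega
      · rcases Nat.lt_trichotomy k j with a2 | a2 | a2
        · exact same k i a2 a1 hi h.symm
        · omega
        · omega)
  rw [lt_min_iff] at hdk
  obtain ⟨hd1, hd2⟩ := hdk
  have h1 := fh i (by omega)
  have h2 := fh k (by omega)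
  have t1 := hc.dist_triangle (u := u) (v := f i) (w := f k)
  have t2 := hc.dist_triangle (u := u) (v := f k) (w := f i)
  rw [dist_comm (u := f k) (v := f i)] at t2
  have c1 : i < j := by omega
  have c2 : j < k := by omega
  have c3 : 1 ≤ i := by
    by_contra h0
    have h0 : i = 0 := by omega
    subst h0
    rw [f1 0 (by omega), p0] at t1 hd1 hd2
    omega
  rw [f1 i c1, f3 k c2] at hd1 hd2
  refine ⟨p i, q (2 * j - k), ?_, ?_, ?_, ?_, ?_, ?_⟩
  · rw [pu i (by omega)]; omega
  · rw [qu _ (by omega)]; omega
  · rw [pu i (by omega)]; have := pz i (by omega); omega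
  · rw [qu _ (by omega)]; have := qz (2 * j - k) (by omega); omega
  · rw [pu i (by omega), qu _ (by omega)]; omega
  · rw [pu i (by omega), qu _ (by omega)]; omega

/-- A cycle with a top edge. -/
theorem shortcutB {G : SimpleGraph V} (hc : G.Connected) (hs : SC G) {j : ℕ} (hj : 2 ≤ j)
    {u a b : V} (hab : G.Adj a b)
    (ha : G.dist u a = j) (hb : G.dist u b = j)
    (hd : ∀ w, G.dist u w + G.dist w a = j → G.dist u w + G.dist w b = j → w = u) :
    ∃ x y, 1 ≤ G.dist u x ∧ 1 ≤ G.dist u y ∧ G.dist u x + G.dist x a = j ∧
      G.dist u y + G.dist y b = j ∧ G.dist x y < G.dist u x + G.dist u y ∧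
      G.dist x y + G.dist u x + G.dist u y < 2 * j + 1 := by
  obtain ⟨p, p0, pa, padj, pu, pz⟩ := geo hc u a
  obtain ⟨q, q0, qb, qadj, qu, qz⟩ := geo hc u b
  rw [ha] at pa padj pu pz
  rw [hb] at qb qadj qu qz
  let f : ℕ → V := fun i => if i ≤ j then p i else q (2 * j + 1 - i)
  have f1 : ∀ i, i ≤ j → f i = p i := fun i hi => if_pos hi
  have f3 : ∀ i, j < i → f i = q (2 * j + 1 - i) := by
    intro i hi
    simp only [f]
    rw [if_neg (by omega)]
  have fh : ∀ i ≤ 2 * j + 1, G.dist u (f i) = min i (2 * j + 1 - i) := by
    intro i hi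
    rcases Nat.lt_or_ge j i with h | h
    · rw [f3 i h, qu _ (by omega)]; omega
    · rw [f1 i h, pu i (by omega)]; omega
  have same : ∀ i k, i ≤ j → j < k → k < 2 * j + 1 → f i = f k → False := by
    intro i k hi hk hk2 h
    have h1 := fh i (by omega)
    have h2 := fh k (by omega)
    rw [h] at h1
    have e : 2 * j + 1 - k = i := by omega
    rw [f1 i hi, f3 k hk, e] at h
    have := hd (p i) (by rw [pu i (by omega)]; have := pz i (by omega); omega)
      (by rw [pu i (by omega), h]; have := qz i (by omega); omega)
    have h3 := pu i (by omega)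
    rw [this] at h3
    simp at h3
    omega
  obtain ⟨i, k, hik, hk, hdk⟩ := hs (2 * j + 1) f (by omega) (by
      intro i hi
      rcases Nat.lt_trichotomy i j with h | h | h
      · rw [f1 i (by omega), f1 (i + 1) (by omega)]
        exact padj i (by omega)
      · subst h
        rw [f1 i (by omega), f3 (i + 1) (by omega), pa]
        have e : 2 * i + 1 - (i + 1) = i := by omega
        rw [e, qb]
        exact hab
      · rw [f3 i h, f3 (i + 1) (by omega)]
        have := qadj (2 * j + 1 - (i + 1)) (by omega)
        have e : 2 * j + 1 - (i + 1) + 1 = 2 * j + 1 - i := by omega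
        rw [e] at this
        exact this.symm)
    (by
      rw [f3 _ (by omega), f1 0 (by omega), p0]
      simpa using q0)
    (by
      intro i hi k hk h
      by_contra hne
      have h1 := fh i (by omega)
      have h2 := fh k (by omega)
      have h1' := h1
      rw [h] at h1
      rcases Nat.lt_or_ge j i with a1 | a1
      · rcases Nat.lt_or_ge j k with a2 | a2
        · omega
        · exact same k i a2 a1 hi h.symm
      · rcases Nat.lt_or_ge j k with a2 | a2
        · exact same i k a1 a2 hk h
        · omega)
  rw [lt_min_iff] at hdk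
  obtain ⟨hd1, hd2⟩ := hdk
  have h1 := fh i (by omega)
  have h2 := fh k (by omega)
  have t1 := hc.dist_triangle (u := u) (v := f i) (w := f k)
  have t2 := hc.dist_triangle (u := u) (v := f k) (w := f i)
  rw [dist_comm (u := f k) (v := f i)] at t2
  have c1 : i ≤ j := by omega
  have c2 : j < k := by omega
  have c3 : 1 ≤ i := by
    by_contra h0
    have h0 : i = 0 := by omega
    subst h0
    rw [f1 0 (by omega), p0] at t1 hd1 hd2
    omega
  rw [f1 i c1, f3 k c2] at hd1 hd2
  refine ⟨p i, q (2 * j + 1 - k), ?_, ?_, ?_, ?_, ?_, ?_⟩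
  · rw [pu i (by omega)]; omega
  · rw [qu _ (by omega)]; omega
  · rw [pu i (by omega)]; have := pz i (by omega); omega
  · rw [qu _ (by omega)]; have := qz (2 * j + 1 - k) (by omega); omega
  · rw [pu i (by omega), qu _ (by omega)]; omega
  · rw [pu i (by omega), qu _ (by omega)]; omega

/-- Both conditions hold in every connected bridged graph. -/
theorem PAB {G : SimpleGraph V} (hc : G.Connected) (hs : SC G) : ∀ j, PA G j ∧ PB G j := by
  intro j
  induction j using Nat.strong_induction_on with
  | _ j ih =>
    have hzero : ∀ {a b : V}, G.dist a b = 0 → a = b := fun h => (hc.dist_eq_zero_iff).1 h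
    have hPA : PA G j := by
      intro u z a b hza hzb hz ha hb
      by_contra hcon
      push Not at hcon
      obtain ⟨hne, hna⟩ := hcon
      rcases Nat.lt_or_ge j 2 with hj | hj
      · have e1 : u = a := hzero (by omega)
        have e2 : u = b := hzero (by omega)
        exact hne (e1.symm.trans e2)
      have hd : ∀ w, G.dist u w + G.dist w a = j - 1 → G.dist u w + G.dist w b = j - 1 →
          w = u := by
        intro w h1 h2
        by_contra hwu
        have hp : 0 < G.dist u w := hc.pos_dist_of_ne (Ne.symm hwu)
        have t1 := hc.dist_triangle (u := u) (v := w) (w := z)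
        have t2 := d_adj hc hza w
        rcases (ih (j - G.dist u w) (by omega)).1 w z a b hza hzb (by omega) (by omega)
          (by omega) with h | h
        · exact hne h
        · exact hna h
      obtain ⟨x, y, hx, hy, hxa, hyb, hxy⟩ := core hc (n := 2 * j) (l := j - 1) (u := u)
        (z1 := a) (z2 := b) (fun i hi => (ih i (by omega)).1) (fun i hi => (ih i (by omega)).2)
        (by omega) (by omega) hd (shortcutA hc hs hj hza hzb hz ha hb hd)
      have t1 := d_adj hc hza x
      have t2 := d_adj hc hzb y
      have t3 := hc.dist_triangle (u := u) (v := x) (w := z)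
      have t4 := hc.dist_triangle (u := u) (v := y) (w := z)
      have e1 : G.dist z x = G.dist x z := dist_comm
      have e2 : G.dist z y = G.dist y z := dist_comm
      have e3 : G.dist a x = G.dist x a := dist_comm
      have e4 : G.dist b y = G.dist y b := dist_comm
      rcases odd_step hc hs (j - 1) (fun k hk => (ih k (by omega)).1)
        (fun k hk => (ih k (by omega)).2) z x y a b hxy (by omega) (by omega) hza hzb
        (by omega) (by omega) with h | h
      · exact hne h
      · exact hna h
    refine ⟨hPA, ?_⟩
    intro u a b hab ha hb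
    by_contra hcon
    rcases Nat.lt_or_ge j 1 with h0 | h0
    · have e1 : u = a := hzero (by omega)
      have e2 : u = b := hzero (by omega)
      exact hab.ne (e1.symm.trans e2)
    rcases Nat.lt_or_ge j 2 with hj | hj
    · apply hcon
      refine ⟨u, ?_, ?_, by simp; omega⟩
      · rw [← dist_eq_one_iff_adj]; omega
      · rw [← dist_eq_one_iff_adj]; omega
    have hd : ∀ w, G.dist u w + G.dist w a = j → G.dist u w + G.dist w b = j → w = u := by
      intro w h1 h2
      by_contra hwu
      have hp : 0 < G.dist u w := hc.pos_dist_of_ne (Ne.symm hwu)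
      obtain ⟨c, hca, hcb, hcd⟩ := (ih (j - G.dist u w) (by omega)).2 w a b hab (by omega)
        (by omega)
      have t1 := hc.dist_triangle (u := u) (v := w) (w := c)
      have t2 := d_adj hc hca u
      exact hcon ⟨c, hca, hcb, by omega⟩
    obtain ⟨x, y, hx, hy, hxa, hyb, hxy⟩ := core hc (n := 2 * j + 1) (l := j) (u := u)
      (z1 := a) (z2 := b)
      (fun i hi => by
        rcases Nat.lt_or_ge i j with h | h
        · exact (ih i h).1
        · have : i = j := by omega
          rw [this]; exact hPA)
      (fun i hi => (ih i (by omega)).2)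
      ha hb hd (shortcutB hc hs hj hab ha hb hd)
    have hxb : G.dist x b = j := by
      have t1 := d_adj hc hab x
      have t2 := hc.dist_triangle (u := u) (v := x) (w := b)
      by_contra hne
      have := hd x (by omega) (by omega)
      subst this
      simp at hx
    have hby : b ≠ y := by
      rintro rfl
      simp at hyb
      omega
    obtain ⟨c, hbc, hcy⟩ := toward hc hby
    have e1 : G.dist b y = G.dist y b := dist_comm
    have e2 : G.dist c y = G.dist y c := dist_comm
    have e3 : G.dist c x = G.dist x c := dist_comm
    have t1 := d_adj hc hxy c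
    have t2 := d_adj hc hbc x
    have t3 := hc.dist_triangle (u := u) (v := y) (w := c)
    have t4 := d_adj hc hbc u
    rcases hPA x b a c hab.symm hbc (by omega) (by omega) (by omega) with h | h
    · subst h
      omega
    · exact hcon ⟨c, h.symm, hbc.symm, by omega⟩

end Pool.Agent.X283.BRG
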