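import Pool.Agent.X283.BRG.Dom

set_option autoImplicit false

namespace Pool.Agent.X283.BRG

open SimpleGraph

universe u

variable {V : Type u}

/-- Well-orders of `V`. -/
def WO (V : Type u) : Type u := {r : V → V → Prop // IsWellOrder V r}

section

variable (G : SimpleGraph V) (v0 : V)

open Classical in
/-- The first neighbour of `x` at height `k`. -/
noncomputable def fa (k : ℕ) (r : WO V) (x : V) : V :=
  if h : ∃ y, G.Adj y x ∧ G.dist v0 y = k then
    (r.2.toIsWellFounded.wf).min {y | G.Adj y x ∧ G.dist v0 y = k} h else x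

/-- The orders of the levels. -/
noncomputable def rk : ℕ → WO V
  | 0 => ⟨WellOrderingRel, inferInstance⟩
  | k + 1 => ⟨(fun x => (fa G v0 k (rk k) x, x)) ⁻¹'o
      (Prod.Lex (rk k).1 (WellOrderingRel : V → V → Prop)), by
        have := (rk k).2
        exact (RelEmbedding.preimage (⟨fun x => (fa G v0 k (rk k) x, x), fun a b h => by
          exact (Prod.ext_iff.1 h).2⟩ : V ↪ V × V) _).isWellOrder⟩

/-- The father of `x`, when `x` is at height `k + 1`. -/
noncomputable def ga (k : ℕ) (x : V) : V := fa G v0 k (rk G v0 k) x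

/-- The father of `x`. -/
noncomputable def fat (x : V) : V := ga G v0 (G.dist v0 x - 1) x

end

variable {G : SimpleGraph V} {v0 : V}

theorem rk_succ {k : ℕ} {x y : V} : (rk G v0 (k + 1)).1 x y ↔
    (rk G v0 k).1 (ga G v0 k x) (ga G v0 k y) ∨
      (ga G v0 k x = ga G v0 k y ∧ WellOrderingRel x y) := by
  change Prod.Lex _ _ _ _ ↔ _
  rw [Prod.lex_def]
  rfl

theorem rk_irrefl (k : ℕ) (x : V) : ¬ (rk G v0 k).1 x x := by
  have := (rk G v0 k).2
  exact irrefl x

theorem rk_asymm {k : ℕ} {x y : V} (h : (rk G v0 k).1 x y) : ¬ (rk G v0 k).1 y x := by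
  have := (rk G v0 k).2
  exact asymm h

theorem ga_spec (hc : G.Connected) {k : ℕ} {x : V} (hx : G.dist v0 x = k + 1) :
    G.Adj (ga G v0 k x) x ∧ G.dist v0 (ga G v0 k x) = k ∧
      ∀ z, G.Adj z x → G.dist v0 z = k → z = ga G v0 k x ∨ (rk G v0 k).1 (ga G v0 k x) z := by
  have hne : x ≠ v0 := by
    rintro rfl
    simp at hx
  obtain ⟨q, hq, hqd⟩ := toward hc hne
  have e1 : G.dist q v0 = G.dist v0 q := dist_comm
  have e2 : G.dist x v0 = G.dist v0 x := dist_comm
  have h : ∃ y, G.Adj y x ∧ G.dist v0 y = k := ⟨q, hq.symm, by omega⟩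
  have hwf := (rk G v0 k).2.toIsWellFounded.wf
  have e : ga G v0 k x = hwf.min {y | G.Adj y x ∧ G.dist v0 y = k} h := by
    unfold ga fa
    rw [dif_pos h]
  have hm : ga G v0 k x ∈ {y | G.Adj y x ∧ G.dist v0 y = k} := by
    rw [e]
    exact hwf.min_mem _ h
  refine ⟨hm.1, hm.2, fun z hz1 hz2 => ?_⟩
  have hn : ¬ (rk G v0 k).1 z (ga G v0 k x) := by
    rw [e]
    exact hwf.not_lt_min _ (⟨hz1, hz2⟩ : z ∈ {y | G.Adj y x ∧ G.dist v0 y = k})
  have := (rk G v0 k).2
  rcases trichotomous_of (rk G v0 k).1 z (ga G v0 k x) with h' | h' | h'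
  · exact absurd h' hn
  · exact Or.inl h'
  · exact Or.inr h'

/-- **The father dominates.** -/
theorem father_dom (hc : G.Connected) (hs : SC G) : ∀ (k : ℕ) (x y : V),
    G.dist v0 x = k + 1 → G.dist v0 y = k + 1 → G.Adj x y → (rk G v0 (k + 1)).1 y x →
    G.Adj y (ga G v0 k x) := by
  intro k
  induction k with
  | zero =>
    intro x y hx hy hxy hr
    obtain ⟨a1, a2, a3⟩ := ga_spec hc hx
    obtain ⟨b1, b2, b3⟩ := ga_spec hc hy
    have e1 : v0 = ga G v0 0 x := hc.dist_eq_zero_iff.1 a2
    have e2 : v0 = ga G v0 0 y := hc.dist_eq_zero_iff.1 b2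
    rw [← e1, e2]
    exact b1.symm
  | succ m ih =>
    intro x y hx hy hxy hr
    obtain ⟨a1, a2, a3⟩ := ga_spec hc hx
    obtain ⟨b1, b2, b3⟩ := ga_spec hc hy
    rcases rk_succ.1 hr with h | ⟨h, -⟩
    swap
    · rw [← h]
      exact b1.symm
    set p := ga G v0 (m + 1) x with hp
    set q := ga G v0 (m + 1) y with hq
    by_contra hcon
    have hqx : ¬ G.Adj q x := by
      intro h'
      rcases a3 q h' b2 with h2 | h2
      · rw [h2] at h
        exact rk_irrefl _ _ h
      · exact rk_asymm h h2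
    have hpq : p ≠ q := by
      intro h'
      rw [h'] at h
      exact rk_irrefl _ _ h
    obtain ⟨z, hzx, hzy, hz⟩ := (PAB hc hs (m + 2)).2 v0 x y hxy hx hy
    have hz' : G.dist v0 z = m + 1 := by omega
    have hzp : G.Adj z p := by
      rcases (PAB hc hs (m + 2)).1 v0 x z p hzx.symm a1.symm hx (by omega) (by omega) with h' | h'
      · subst h'
        exact absurd hzy.symm hcon
      · exact h'
    have hzq : G.Adj z q := by
      rcases (PAB hc hs (m + 2)).1 v0 y z q hzy.symm b1.symm hy (by omega) (by omega) with h' | h'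
      · subst h'
        exact absurd hzx hqx
      · exact h'
    have hxq : x ≠ q := by
      intro h'
      rw [← h'] at b2
      omega
    have hyp : y ≠ p := by
      intro h'
      rw [← h'] at a2
      omega
    have hnpq : ¬ G.Adj p q := by
      intro h'
      rcases noC4 hs hxy b1.symm h'.symm a1 hxq hyp with h2 | h2
      · exact hqx h2.symm
      · exact hcon h2
    have hpz : (rk G v0 (m + 1)).1 p z := by
      rcases a3 z hzx hz' with h' | h'
      · exact absurd h' hzp.ne
      · exact h'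
    have hqz : (rk G v0 (m + 1)).1 q z := by
      rcases b3 z hzy hz' with h' | h'
      · exact absurd h' hzq.ne
      · exact h'
    have t1 := ih z p hz' a2 hzp hpz
    have t2 := ih z q hz' b2 hzq hqz
    obtain ⟨-, ht, -⟩ := ga_spec hc hz'
    set t := ga G v0 m z with htdef
    have hlev : ∀ {w w' : V}, G.dist v0 w + 1 < G.dist v0 w' → ¬ G.Adj w w' := by
      intro w w' h1 h2
      have := d_adj hc h2 v0
      omega
    have hxt : x ≠ t := by
      intro h'
      rw [← h'] at ht
      omega
    have hyt : y ≠ t := by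
      intro h'
      rw [← h'] at ht
      omega
    rcases noC5 hs a1.symm t1 t2.symm b1 hxy.symm hxt hxq hpq hyp.symm hyt.symm with
      h' | h' | h' | h' | h'
    · exact hlev (w := t) (w' := x) (by omega) h'.symm
    · exact hqx h'.symm
    · exact hnpq h'
    · exact hcon h'.symm
    · exact hlev (w := t) (w' := y) (by omega) h'

/-- Sets closed under fathers. -/
def FC (G : SimpleGraph V) (v0 : V) (F : Finset V) : Prop :=
  v0 ∈ F ∧ ∀ x ∈ F, x ≠ v0 → fat G v0 x ∈ F

theorem fat_spec (hc : G.Connected) {x : V} (hx : x ≠ v0) :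
    G.Adj (fat G v0 x) x ∧ G.dist v0 (fat G v0 x) + 1 = G.dist v0 x := by
  have : 0 < G.dist v0 x := hc.pos_dist_of_ne hx.symm
  obtain ⟨a1, a2, -⟩ := ga_spec (G := G) (v0 := v0) (k := G.dist v0 x - 1) (x := x) hc (by omega)
  exact ⟨a1, by unfold fat; omega⟩

theorem bridged_of_FC (hc : G.Connected) (hs : SC G) : ∀ (n : ℕ) (F : Finset V), F.card = n →
    FC G v0 F → (G.induce (F : Set V)).Connected ∧ SC (G.induce (F : Set V)) := by
  classical
  intro n
  induction n with
  | zero =>
    intro F hF hFC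
    rw [Finset.card_eq_zero] at hF
    rw [hF] at hFC
    exact absurd hFC.1 (by simp)
  | succ n ih =>
    intro F hF hFC
    by_cases hall : ∀ x ∈ F, x = v0
    · have hsub : ∀ a b : (F : Set V), a = b := fun a b =>
        Subtype.ext ((hall a a.2).trans (hall b b.2).symm)
      have : Subsingleton (F : Set V) := ⟨hsub⟩
      have : Nonempty (F : Set V) := ⟨⟨v0, hFC.1⟩⟩
      refine ⟨⟨fun a b => by rw [hsub a b]⟩, ?_⟩
      intro m c hm hadj _ _
      exact absurd (hsub (c 0) (c 1)) (hadj 0 (by omega)).ne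
    · push Not at hall
      obtain ⟨x0, hx0, hx0'⟩ := hall
      -- the top level
      obtain ⟨x1, hx1, hmax⟩ := Finset.exists_max_image F (fun x => G.dist v0 x) ⟨x0, hx0⟩
      have hpos : 0 < G.dist v0 x1 :=
        lt_of_lt_of_le (hc.pos_dist_of_ne hx0'.symm) (hmax x0 hx0)
      obtain ⟨k, hk⟩ : ∃ k, G.dist v0 x1 = k + 1 := ⟨G.dist v0 x1 - 1, by omega⟩
      -- the last vertex of the top level
      have hlast : ∃ x ∈ F, G.dist v0 x = k + 1 ∧ ∀ y ∈ F, G.dist v0 y = k + 1 → y ≠ x →
          (rk G v0 (k + 1)).1 y x := by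
        have := (rk G v0 (k + 1)).2
        let _ : LinearOrder V := linearOrderOfSTO (rk G v0 (k + 1)).1
        obtain ⟨x, hx, hxm⟩ := Finset.exists_max_image (F.filter (fun x => G.dist v0 x = k + 1))
          (fun x => x) ⟨x1, by simp [hx1, hk]⟩
        rw [Finset.mem_filter] at hx
        refine ⟨x, hx.1, hx.2, fun y hy hy1 hyx => ?_⟩
        have h1 : y ≤ x := hxm y (by simp [hy, hy1])
        have h2 : y < x := lt_of_le_of_ne h1 hyx
        exact h2
      obtain ⟨x, hxF, hxk, hxlast⟩ := hlast
      have hxv : x ≠ v0 := by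
        rintro rfl
        simp at hxk
      have hfat : fat G v0 x = ga G v0 k x := by
        unfold fat
        rw [hxk]
        rfl
      obtain ⟨f1, f2⟩ := fat_spec hc hxv
      have hfx : fat G v0 x ≠ x := by
        intro h
        rw [h] at f2
        omega
      have hcard : (F.erase x).card = n := by
        rw [Finset.card_erase_of_mem hxF]; omega
      have hFC' : FC G v0 (F.erase x) := by
        refine ⟨Finset.mem_erase.2 ⟨hxv.symm, hFC.1⟩, fun y hy hyv => ?_⟩
        rw [Finset.mem_erase] at hy ⊢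
        refine ⟨?_, hFC.2 y hy.2 hyv⟩
        intro h
        obtain ⟨-, g2⟩ := fat_spec hc hyv
        rw [h] at g2
        have := hmax y hy.2
        omega
      obtain ⟨ihc, ihs⟩ := ih (F.erase x) hcard hFC'
      let e : (((F.erase x : Finset V) : Set V)) → (F : Set V) := fun a =>
        ⟨a.1, (Finset.mem_erase.1 a.2).2⟩
      refine dom_step (H := G.induce (F : Set V)) (H' := G.induce ((F.erase x : Finset V) : Set V))
        e (fun a b => Iff.rfl)
        (fun a b h => Subtype.ext (by have h' := congrArg Subtype.val h; exact h')) ⟨x, hxF⟩ ?_ ?_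
        ihc ihs ⟨fat G v0 x, ?_⟩ ?_ ?_ ?_ ?_
      · intro w hw
        refine ⟨⟨w.1, ?_⟩, rfl⟩
        rw [Finset.mem_coe, Finset.mem_erase]
        exact ⟨fun h => hw (Subtype.ext h), w.2⟩
      · intro a h
        have h1 := a.2
        rw [Finset.mem_coe, Finset.mem_erase] at h1
        exact h1.1 (Subtype.ext_iff.1 h)
      · rw [Finset.mem_coe, Finset.mem_erase]
        exact ⟨hfx, hFC.2 x hxF hxv⟩
      · exact f1.symm
      · intro a ha
        have haF : a.1 ∈ F := (Finset.mem_erase.1 a.2).2
        have hax : G.Adj x a.1 := ha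
        have h1 := d_adj hc hax v0
        have h2 := hmax a.1 haF
        rcases Nat.lt_or_ge (G.dist v0 a.1) (k + 1) with h3 | h3
        · rcases (PAB hc hs (k + 1)).1 v0 x a.1 (fat G v0 x) hax f1.symm hxk (by omega) (by omega)
            with h | h
          · exact Or.inl (Subtype.ext h)
          · exact Or.inr h
        · have h4 : G.dist v0 a.1 = k + 1 := by omega
          have h5 := hxlast a.1 haF h4 hax.ne'
          have h6 := father_dom hc hs k x a.1 hxk h4 hax h5
          right
          change G.Adj a.1 (fat G v0 x)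
          rw [hfat]
          exact h6
      · intro a b c d h1 h2 h3 h4 h5 h6
        exact noC4 hs (a := a.1) (b := b.1) (c := c.1) (d := d.1) h1 h2 h3 h4
          (fun h => h5 (Subtype.ext h)) (fun h => h6 (Subtype.ext h))
      · intro a b c d e h1 h2 h3 h4 h5 h6 h7 h8 h9 h10
        exact noC5 hs (a := a.1) (b := b.1) (c := c.1) (d := d.1) (e := e.1) h1 h2 h3 h4 h5
          (fun h => h6 (Subtype.ext h)) (fun h => h7 (Subtype.ext h))
          (fun h => h8 (Subtype.ext h)) (fun h => h9 (Subtype.ext h))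
          (fun h => h10 (Subtype.ext h))

theorem fat_iter (hc : G.Connected) (x : V) : ∀ i ≤ G.dist v0 x,
    G.dist v0 ((fat G v0)^[i] x) + i = G.dist v0 x := by
  intro i
  induction i with
  | zero => intro _; simp
  | succ i ih =>
    intro hi
    have h1 := ih (by omega)
    rw [Function.iterate_succ_apply']
    have hne : (fat G v0)^[i] x ≠ v0 := by
      intro h
      rw [h, dist_self] at h1
      omega
    have := (fat_spec hc hne).2
    omega

theorem exists_FC (hc : G.Connected) (S : Finset V) : ∃ F : Finset V, S ⊆ F ∧ FC G v0 F := by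
  classical
  refine ⟨(insert v0 S).biUnion (fun x => (Finset.range (G.dist v0 x + 1)).image
    (fun i => (fat G v0)^[i] x)), ?_, ?_, ?_⟩
  · intro x hx
    rw [Finset.mem_biUnion]
    refine ⟨x, by simp [hx], ?_⟩
    rw [Finset.mem_image]
    exact ⟨0, by simp, rfl⟩
  · rw [Finset.mem_biUnion]
    refine ⟨v0, by simp, ?_⟩
    rw [Finset.mem_image]
    exact ⟨0, by simp, rfl⟩
  · intro y hy hyv
    rw [Finset.mem_biUnion] at hy ⊢
    obtain ⟨x, hx, hy⟩ := hy
    rw [Finset.mem_image] at hy
    obtain ⟨i, hi, rfl⟩ := hy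
    rw [Finset.mem_range] at hi
    have h1 := fat_iter (v0 := v0) hc x i (by omega)
    have h2 : 0 < G.dist v0 ((fat G v0)^[i] x) := hc.pos_dist_of_ne hyv.symm
    refine ⟨x, hx, ?_⟩
    rw [Finset.mem_image]
    exact ⟨i + 1, by rw [Finset.mem_range]; omega, by rw [Function.iterate_succ_apply']⟩

/-- The connected case. -/
theorem main_connected (hc : G.Connected) (hs : SC G) (S : Finset V) :
    ∃ F : Finset V, S ⊆ F ∧ SC (G.induce (F : Set V)) := by
  have := hc.nonempty
  obtain ⟨F, h1, h2⟩ := exists_FC (v0 := Classical.arbitrary V) hc S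
  exact ⟨F, h1, (bridged_of_FC hc hs _ F rfl h2).2⟩

end Pool.Agent.X283.BRG
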