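import Mathlib

set_option autoImplicit false

namespace Pool.Agent.X283.BRG

open SimpleGraph

universe u

variable {V : Type u}

/-- Every closed sequence without repetition of length at least `4` has a shortcut. -/
def SC (G : SimpleGraph V) : Prop :=
  ∀ (n : ℕ) (c : ℕ → V), 4 ≤ n → (∀ i < n, G.Adj (c i) (c (i + 1))) → c n = c 0 →
    (∀ i < n, ∀ j < n, c i = c j → i = j) →
    ∃ i j, i ≤ j ∧ j < n ∧ G.dist (c i) (c j) < min (j - i) (n - (j - i))

/-- The same for cycles given as closed walks. -/
def WSC (G : SimpleGraph V) : Prop :=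
  ∀ (u : V) (c : G.Walk u u), c.IsCycle → 4 ≤ c.length →
    ∃ i j : ℕ, i ≤ j ∧ j < c.length ∧
      G.dist (c.getVert i) (c.getVert j) < min (j - i) (c.length - (j - i))

theorem walkOf {G : SimpleGraph V} : ∀ (n : ℕ) (c : ℕ → V), (∀ i < n, G.Adj (c i) (c (i + 1))) →
    ∃ w : G.Walk (c 0) (c n), w.length = n ∧ ∀ i ≤ n, w.getVert i = c i := by
  intro n
  induction n with
  | zero =>
    intro c _
    refine ⟨Walk.nil, rfl, fun i hi => ?_⟩
    obtain rfl : i = 0 := by omega
    simp
  | succ n ih =>
    intro c h
    obtain ⟨w, hw, hv⟩ := ih (fun i => c (i + 1)) (fun i hi => h (i + 1) (by omega))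
    refine ⟨Walk.cons (h 0 (by omega)) w, by simp [hw], fun i hi => ?_⟩
    cases i with
    | zero => simp
    | succ i => simpa using hv i (by omega)

theorem dist_le_fun {G : SimpleGraph V} {n : ℕ} {c : ℕ → V}
    (h : ∀ i < n, G.Adj (c i) (c (i + 1))) {i k : ℕ} (hik : i ≤ k) (hk : k ≤ n) :
    G.dist (c i) (c k) ≤ k - i := by
  obtain ⟨w, hw, -⟩ := walkOf (G := G) (k - i) (fun j => c (i + j))
    (fun j hj => h (i + j) (by omega))
  have e : i + (k - i) = k := by omega
  have := dist_le w
  simp only [Nat.add_zero, e, hw] at this
  exact this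

theorem SC_of_WSC {G : SimpleGraph V} (h : WSC G) : SC G := by
  intro n c hn hadj h0 hinj
  obtain ⟨w, hw, hv⟩ := walkOf n c hadj
  have key : ∀ i ≤ n, (w.copy rfl h0).getVert i = c i := by
    intro i hi
    simpa using hv i hi
  have hlen : (w.copy rfl h0).length = n := by simpa using hw
  have hnn : ¬ (w.copy rfl h0).Nil := by
    rw [← Walk.length_eq_zero_iff]
    omega
  have hcyc : (w.copy rfl h0).IsCycle := by
    rw [Walk.isCycle_iff_isPath_tail_and_le_length]
    refine ⟨?_, by omega⟩
    rw [← Walk.IsPath.getVert_injOn_iff]
    have hlt := Walk.length_tail_add_one hnn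
    intro i hi j hj hij
    simp only [Set.mem_ofPred_eq] at hi hj
    rw [Walk.getVert_tail, Walk.getVert_tail, key _ (by omega), key _ (by omega)] at hij
    by_cases h1 : i + 1 < n
    · by_cases h2 : j + 1 < n
      · have := hinj _ h1 _ h2 hij
        omega
      · have e : j + 1 = n := by omega
        rw [e, h0] at hij
        have := hinj _ h1 0 (by omega) hij
        omega
    · have e : i + 1 = n := by omega
      by_cases h2 : j + 1 < n
      · rw [e, h0] at hij
        have := hinj 0 (by omega) _ h2 hij
        omega
      · omega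
  obtain ⟨i, j, hij, hj, hd⟩ := h (c 0) (w.copy rfl h0) hcyc (by omega)
  rw [hlen] at hj hd
  refine ⟨i, j, hij, hj, ?_⟩
  rwa [key i (by omega), key j (by omega)] at hd

theorem WSC_of_SC {G : SimpleGraph V} (h : SC G) : WSC G := by
  intro u c hc hlen
  obtain ⟨i, j, hij, hj, hd⟩ := h c.length c.getVert hlen
    (fun i hi => Walk.adj_getVert_succ _ hi) (by simp)
    (fun i hi j hj hij => hc.getVert_injOn' (by simp only [Set.mem_ofPred_eq]; omega)
      (by simp only [Set.mem_ofPred_eq]; omega) hij)
  exact ⟨i, j, hij, hj, hd⟩

/-- no induced four-cycle -/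
theorem noC4 {G : SimpleGraph V} (h : SC G) {a b c d : V} (hab : G.Adj a b) (hbc : G.Adj b c)
    (hcd : G.Adj c d) (hda : G.Adj d a) (hac : a ≠ c) (hbd : b ≠ d) : G.Adj a c ∨ G.Adj b d := by
  by_contra hcon
  push Not at hcon
  let f : ℕ → V := fun i => if i = 0 then a else if i = 1 then b else if i = 2 then c else
    if i = 3 then d else a
  have f0 : f 0 = a := rfl
  have f1 : f 1 = b := rfl
  have f2 : f 2 = c := rfl
  have f3 : f 3 = d := rfl
  have f4 : f 4 = a := rfl
  obtain ⟨i, j, hij, hj, hd⟩ := h 4 f le_rfl
    (by
      intro i hi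
      interval_cases i
      · simpa [f0, f1] using hab
      · simpa [f2, f1] using hbc
      · simpa [f2, f3] using hcd
      · simpa [f4, f3] using hda) rfl
    (by
      intro i hi j hj hij
      have n1 := hab.ne
      have n2 := hbc.ne
      have n3 := hcd.ne
      have n4 := hda.ne
      interval_cases i <;> interval_cases j <;> simp only [f0, f1, f2, f3] at hij <;>
        first
          | rfl
          | exact absurd hij n1
          | exact absurd hij.symm n1
          | exact absurd hij n2
          | exact absurd hij.symm n2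
          | exact absurd hij n3
          | exact absurd hij.symm n3
          | exact absurd hij n4
          | exact absurd hij.symm n4
          | exact absurd hij hac
          | exact absurd hij.symm hac
          | exact absurd hij hbd
          | exact absurd hij.symm hbd)
  have rac : G.Reachable a c := hab.reachable.trans hbc.reachable
  have rbd : G.Reachable b d := hbc.reachable.trans hcd.reachable
  have dac := rac.one_lt_dist_of_ne_of_not_adj hac hcon.1
  have dbd := rbd.one_lt_dist_of_ne_of_not_adj hbd hcon.2
  have d1 := dist_eq_one_iff_adj.2 hab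
  have d2 := dist_eq_one_iff_adj.2 hbc
  have d3 := dist_eq_one_iff_adj.2 hcd
  have d4 := dist_eq_one_iff_adj.2 hda.symm
  rw [lt_min_iff] at hd
  obtain ⟨hd1, hd2⟩ := hd
  interval_cases j <;> interval_cases i <;> simp only [f0, f1, f2, f3] at hd1 hd2 <;> omega

/-- no induced five-cycle -/
theorem noC5 {G : SimpleGraph V} (h : SC G) {a b c d e : V} (hab : G.Adj a b) (hbc : G.Adj b c)
    (hcd : G.Adj c d) (hde : G.Adj d e) (hea : G.Adj e a) (hac : a ≠ c) (had : a ≠ d)
    (hbd : b ≠ d) (hbe : b ≠ e) (hce : c ≠ e) :
    G.Adj a c ∨ G.Adj a d ∨ G.Adj b d ∨ G.Adj b e ∨ G.Adj c e := by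
  by_contra hcon
  push Not at hcon
  obtain ⟨k1, k2, k3, k4, k5⟩ := hcon
  let f : ℕ → V := fun i => if i = 0 then a else if i = 1 then b else if i = 2 then c else
    if i = 3 then d else if i = 4 then e else a
  have f0 : f 0 = a := rfl
  have f1 : f 1 = b := rfl
  have f2 : f 2 = c := rfl
  have f3 : f 3 = d := rfl
  have f4 : f 4 = e := rfl
  have f5 : f 5 = a := rfl
  obtain ⟨i, j, hij, hj, hd⟩ := h 5 f (by norm_num)
    (by
      intro i hi
      interval_cases i
      · simpa [f0, f1] using hab
      · simpa [f2, f1] using hbc
      · simpa [f2, f3] using hcd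
      · simpa [f4, f3] using hde
      · simpa [f4, f5] using hea) rfl
    (by
      intro i hi j hj hij
      have n1 := hab.ne
      have n2 := hbc.ne
      have n3 := hcd.ne
      have n4 := hde.ne
      have n5 := hea.ne
      interval_cases i <;> interval_cases j <;> simp only [f0, f1, f2, f3, f4] at hij <;>
        first
          | rfl
          | exact absurd hij n1
          | exact absurd hij.symm n1
          | exact absurd hij n2
          | exact absurd hij.symm n2
          | exact absurd hij n3
          | exact absurd hij.symm n3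
          | exact absurd hij n4
          | exact absurd hij.symm n4
          | exact absurd hij n5
          | exact absurd hij.symm n5
          | exact absurd hij hac
          | exact absurd hij.symm hac
          | exact absurd hij had
          | exact absurd hij.symm had
          | exact absurd hij hbd
          | exact absurd hij.symm hbd
          | exact absurd hij hbe
          | exact absurd hij.symm hbe
          | exact absurd hij hce
          | exact absurd hij.symm hce)
  have rac : G.Reachable a c := hab.reachable.trans hbc.reachable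
  have rbd : G.Reachable b d := hbc.reachable.trans hcd.reachable
  have rce : G.Reachable c e := hcd.reachable.trans hde.reachable
  have rad : G.Reachable a d := rac.trans hcd.reachable
  have rbe : G.Reachable b e := rbd.trans hde.reachable
  have dac := rac.one_lt_dist_of_ne_of_not_adj hac k1
  have dad := rad.one_lt_dist_of_ne_of_not_adj had k2
  have dbd := rbd.one_lt_dist_of_ne_of_not_adj hbd k3
  have dbe := rbe.one_lt_dist_of_ne_of_not_adj hbe k4
  have dce := rce.one_lt_dist_of_ne_of_not_adj hce k5
  have d1 := dist_eq_one_iff_adj.2 hab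
  have d2 := dist_eq_one_iff_adj.2 hbc
  have d3 := dist_eq_one_iff_adj.2 hcd
  have d4 := dist_eq_one_iff_adj.2 hde
  have d5 := dist_eq_one_iff_adj.2 hea.symm
  rw [lt_min_iff] at hd
  obtain ⟨hd1, hd2⟩ := hd
  interval_cases j <;> interval_cases i <;> simp only [f0, f1, f2, f3, f4] at hd1 hd2 <;> omega

end Pool.Agent.X283.BRG
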