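import Pool.Agent.X283.BRG.AB

set_option autoImplicit false

namespace Pool.Agent.X283.BRG

open SimpleGraph

universe u v

variable {W : Type u} {W' : Type v}

theorem hom_dist_le {H' : SimpleGraph W'} {H : SimpleGraph W} (f : W' → W)
    (hf : ∀ a b, H'.Adj a b → H.Adj (f a) (f b)) {a b : W'} (h : H'.Reachable a b) :
    H.dist (f a) (f b) ≤ H'.dist a b := by
  obtain ⟨w, hw⟩ := h.exists_walk_length_eq_dist
  let φ : H' →g H := ⟨f, fun {a b} h => hf a b h⟩
  have := dist_le (w.map φ)
  rw [Walk.length_map, hw] at this
  exact this

theorem weak_hom_dist_le {H : SimpleGraph W} {H' : SimpleGraph W'} (hc : H'.Connected)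
    (f : W → W') (hf : ∀ a b, H.Adj a b → f a = f b ∨ H'.Adj (f a) (f b)) {a b : W}
    (h : H.Reachable a b) : H'.dist (f a) (f b) ≤ H.dist a b := by
  obtain ⟨w, hw⟩ := h.exists_walk_length_eq_dist
  rw [← hw]
  clear hw h
  induction w with
  | nil => simp
  | cons h p ih =>
    rename_i x y z
    rw [Walk.length_cons]
    rcases hf _ _ h with h | h
    · rw [h]; omega
    · have := d_adj hc h (f z)
      rw [dist_comm (u := f z) (v := f x), dist_comm (u := f z) (v := f y)] at this
      omega

/-- An isometric cycle, extended periodically. -/
structure IsoCyc (H : SimpleGraph W) (n : ℕ) (c : ℕ → W) : Prop where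
  adj : ∀ i, H.Adj (c i) (c (i + 1))
  per : ∀ i, c (i + n) = c i
  dist_eq : ∀ i j, i ≤ j → j < i + n → H.dist (c i) (c j) = min (j - i) (n - (j - i))

theorem exists_isoCyc {H : SimpleGraph W} (h : ¬ SC H) : ∃ n c, 4 ≤ n ∧ IsoCyc H n c := by
  unfold SC at h
  push Not at h
  obtain ⟨n, c, hn, hadj, h0, -, hd⟩ := h
  have hn0 : 0 < n := by omega
  have hlt : ∀ i, i % n < n := fun i => Nat.mod_lt i hn0
  have hsucc : ∀ i, c ((i + 1) % n) = c (i % n + 1) := by
    intro i
    have := hlt i
    rw [Nat.add_mod]
    rcases Nat.lt_or_ge (i % n + 1) n with h | h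
    · rw [Nat.mod_eq_of_lt (a := 1) (by omega), Nat.mod_eq_of_lt h]
    · have e : i % n + 1 = n := by omega
      rw [Nat.mod_eq_of_lt (a := 1) (by omega), e, Nat.mod_self, h0]
  refine ⟨n, fun i => c (i % n), hn, ?_, ?_, ?_⟩
  · intro i
    rw [hsucc]
    exact hadj _ (hlt i)
  · intro i
    simp
  · intro i j hij hj
    have hup : ∀ a b, a ≤ b → b < n → H.dist (c a) (c b) = min (b - a) (n - (b - a)) := by
      intro a b hab hb
      apply le_antisymm _ (hd a b hab hb)
      have h1 := dist_le_fun hadj hab hb.le
      have h2 := dist_le_fun hadj (Nat.zero_le a) (by omega : a ≤ n)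
      have h3 := dist_le_fun hadj hb.le le_rfl
      have hr : H.Reachable (c b) (c n) := by
        obtain ⟨w, -, -⟩ := walkOf (G := H) (n - b) (fun j => c (b + j))
          (fun j hj => hadj (b + j) (by omega))
        have e : b + (n - b) = n := by omega
        simp only [Nat.add_zero, e] at w
        exact w.reachable
      have h4 := hr.dist_triangle_left (c a)
      rw [h0, dist_comm (u := c b) (v := c a)] at h4
      rw [h0] at h3
      omega
    have hi := hlt i
    have hj' := hlt j
    have e1 := Nat.div_add_mod i n
    have e2 := Nat.div_add_mod j n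
    rcases Nat.lt_or_ge (j % n) (i % n) with h | h
    · rw [dist_comm, hup _ _ h.le hi]
      have : j / n = i / n + 1 := by
        have h1 : n * (i / n) < n * (j / n) := by omega
        have h2 : i / n < j / n := lt_of_mul_lt_mul_left h1 (Nat.zero_le n)
        have h3 : n * (j / n) < n * (i / n + 2) := by
          rw [mul_add]; omega
        have h4 : j / n < i / n + 2 := lt_of_mul_lt_mul_left h3 (Nat.zero_le n)
        omega
      rw [this, mul_add] at e2
      have : j - i = n - (i % n - j % n) := by omega
      rw [this]
      omega
    · rw [hup _ _ h hj']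
      have : j / n = i / n := by
        have h1 : n * (j / n) < n * (i / n + 1) := by
          rw [mul_add]; omega
        have h2 : j / n < i / n + 1 := lt_of_mul_lt_mul_left h1 (Nat.zero_le n)
        have h3 : n * (i / n) < n * (j / n + 1) := by
          rw [mul_add]; omega
        have h4 : i / n < j / n + 1 := lt_of_mul_lt_mul_left h3 (Nat.zero_le n)
        omega
      rw [this] at e2
      have : j - i = j % n - i % n := by omega
      rw [this]

theorem IsoCyc.shift {H : SimpleGraph W} {n : ℕ} {c : ℕ → W} (h : IsoCyc H n c) (k : ℕ) :
    IsoCyc H n (fun i => c (i + k)) := by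
  refine ⟨fun i => ?_, fun i => ?_, fun i j hij hj => ?_⟩
  · have := h.adj (i + k)
    have e : i + k + 1 = i + 1 + k := by omega
    rw [e] at this
    exact this
  · have := h.per (i + k)
    have e : i + k + n = i + n + k := by omega
    rw [e] at this
    exact this
  · have := h.dist_eq (i + k) (j + k) (by omega) (by omega)
    have e : j + k - (i + k) = j - i := by omega
    rw [e] at this
    exact this

/-- Adding a dominated vertex. -/
theorem dom_step {H : SimpleGraph W} {H' : SimpleGraph W'} (e : W' → W)
    (he : ∀ a b, H'.Adj a b ↔ H.Adj (e a) (e b)) (hinj : Function.Injective e) (x : W)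
    (hx : ∀ w, w ≠ x → ∃ a, e a = w) (hx' : ∀ a, e a ≠ x) (hc' : H'.Connected) (hs' : SC H')
    (d : W') (hd : H.Adj x (e d)) (hdom : ∀ a, H.Adj x (e a) → a = d ∨ H'.Adj a d)
    (h4 : ∀ a b c d, H.Adj a b → H.Adj b c → H.Adj c d → H.Adj d a → a ≠ c → b ≠ d →
      H.Adj a c ∨ H.Adj b d)
    (h5 : ∀ a b c d e, H.Adj a b → H.Adj b c → H.Adj c d → H.Adj d e → H.Adj e a →
      a ≠ c → a ≠ d → b ≠ d → b ≠ e → c ≠ e →
      H.Adj a c ∨ H.Adj a d ∨ H.Adj b d ∨ H.Adj b e ∨ H.Adj c e) :
    H.Connected ∧ SC H := by
  classical
  have hreach : ∀ a b, H.Reachable (e a) (e b) := by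
    intro a b
    obtain ⟨w⟩ := hc'.preconnected a b
    let φ : H' →g H := ⟨e, fun {a b} h => (he a b).1 h⟩
    exact (w.map φ).reachable
  have hxr : ∀ w, H.Reachable x w := by
    intro w
    by_cases hw : w = x
    · rw [hw]
    · obtain ⟨a, rfl⟩ := hx w hw
      exact hd.reachable.trans (hreach d a)
  have hconn : H.Connected := by
    have : Nonempty W := ⟨x⟩
    refine ⟨fun a b => (hxr a).symm.trans (hxr b)⟩
  refine ⟨hconn, ?_⟩
  -- the retraction
  let r : W → W' := fun w => if h : w = x then d else (hx w h).choose
  have rx : r x = d := by simp [r]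
  have re : ∀ a, r (e a) = a := by
    intro a
    have h := hx' a
    simp only [r, dif_neg h]
    exact hinj (hx (e a) h).choose_spec
  have er : ∀ w, w ≠ x → e (r w) = w := by
    intro w hw
    obtain ⟨a, rfl⟩ := hx w hw
    rw [re]
  have hr : ∀ a b, H.Adj a b → r a = r b ∨ H'.Adj (r a) (r b) := by
    intro a b hab
    by_cases ha : a = x
    · subst ha
      have hb : b ≠ a := hab.ne'
      obtain ⟨b, rfl⟩ := hx b hb
      rw [rx, re]
      rcases hdom b hab with h | h
      · exact Or.inl h.symm
      · exact Or.inr h.symm
    · obtain ⟨a, rfl⟩ := hx a ha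
      by_cases hb : b = x
      · subst hb
        rw [rx, re]
        exact hdom a hab.symm
      · obtain ⟨b, rfl⟩ := hx b hb
        rw [re, re]
        exact Or.inr ((he a b).2 hab)
  have hiso : ∀ a b, H'.dist a b = H.dist (e a) (e b) := by
    intro a b
    apply le_antisymm
    · have := weak_hom_dist_le hc' r hr (hreach a b)
      rwa [re, re] at this
    · exact hom_dist_le e (fun a b h => (he a b).1 h) (hc'.preconnected a b)
  by_contra hcon
  obtain ⟨n, c, hn, hI⟩ := exists_isoCyc hcon
  by_cases hxc : ∃ k, c k = x
  · obtain ⟨k, hk⟩ := hxc
    -- rotate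
    have hJ := hI.shift k
    set f : ℕ → W := fun i => c (i + k) with hf
    have f0 : f 0 = x := by simp [hf, hk]
    have fn : f n = x := by
      have := hJ.per 0
      rw [Nat.zero_add] at this
      rw [this, f0]
    have fx : ∀ i, 0 < i → i < n → f i ≠ x := by
      intro i h1 h2 h3
      have := hJ.dist_eq 0 i (by omega) (by omega)
      rw [f0, h3, dist_self] at this
      omega
    have da : ∀ i j, H.Adj (f i) (f j) → H.dist (f i) (f j) = 1 := fun i j h =>
      dist_eq_one_iff_adj.2 h
    rcases Nat.lt_or_ge n 6 with hn6 | hn6
    · have hne : ∀ i j, i < j → j < n → f i ≠ f j := by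
        intro i j hij hj h
        have := hJ.dist_eq i j (by omega) (by omega)
        rw [h, dist_self] at this
        omega
      have e4 := hJ.adj 3
      rcases (by omega : n = 4 ∨ n = 5) with rfl | rfl
      · rw [show (3 + 1 : ℕ) = 4 from rfl, fn, ← f0] at e4
        rcases h4 (f 0) (f 1) (f 2) (f 3) (hJ.adj 0) (hJ.adj 1) (hJ.adj 2) e4
          (hne 0 2 (by omega) (by omega)) (hne 1 3 (by omega) (by omega)) with h | h
        · have h1 := da _ _ h
          have h2 := hJ.dist_eq 0 2 (by omega) (by omega)
          omega
        · have h1 := da _ _ h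
          have h2 := hJ.dist_eq 1 3 (by omega) (by omega)
          omega
      · have e5 := hJ.adj 4
        rw [show (4 + 1 : ℕ) = 5 from rfl, fn, ← f0] at e5
        rcases h5 (f 0) (f 1) (f 2) (f 3) (f 4) (hJ.adj 0) (hJ.adj 1) (hJ.adj 2) (hJ.adj 3) e5
          (hne 0 2 (by omega) (by omega)) (hne 0 3 (by omega) (by omega))
          (hne 1 3 (by omega) (by omega)) (hne 1 4 (by omega) (by omega))
          (hne 2 4 (by omega) (by omega)) with h | h | h | h | h
        · have h1 := da _ _ h
          have h2 := hJ.dist_eq 0 2 (by omega) (by omega)
          omega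
        · have h1 := da _ _ h
          have h2 := hJ.dist_eq 0 3 (by omega) (by omega)
          omega
        · have h1 := da _ _ h
          have h2 := hJ.dist_eq 1 3 (by omega) (by omega)
          omega
        · have h1 := da _ _ h
          have h2 := hJ.dist_eq 1 4 (by omega) (by omega)
          omega
        · have h1 := da _ _ h
          have h2 := hJ.dist_eq 2 4 (by omega) (by omega)
          omega
    · -- long cycles
      let a : ℕ → W' := fun i => r (f i)
      have ea : ∀ i, 0 < i → i < n → e (a i) = f i := fun i h1 h2 => er _ (fx i h1 h2)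
      have dd : ∀ i j, 0 < i → i ≤ j → j < n → H'.dist (a i) (a j) = min (j - i) (n - (j - i)) := by
        intro i j h1 h2 h3
        rw [hiso, ea i h1 (by omega), ea j (by omega) h3]
        exact hJ.dist_eq i j h2 (by omega)
      have dd' : ∀ i j, 0 < i → i ≤ j → j < n → H'.dist (a j) (a i) = min (j - i) (n - (j - i)) := by
        intro i j h1 h2 h3
        rw [dist_comm]
        exact dd i j h1 h2 h3
      have aadj : ∀ i, 0 < i → i + 1 < n → H'.Adj (a i) (a (i + 1)) := by
        intro i h1 h2
        rw [he, ea i h1 (by omega), ea (i + 1) (by omega) h2]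
        exact hJ.adj i
      have x1 : H.Adj x (e (a 1)) := by
        rw [ea 1 (by omega) (by omega), ← f0]
        exact hJ.adj 0
      have xn : H.Adj x (e (a (n - 1))) := by
        rw [ea (n - 1) (by omega) (by omega), ← fn]
        have := hJ.adj (n - 1)
        have e' : n - 1 + 1 = n := by omega
        rw [e'] at this
        exact this.symm
      have hd1 : H'.Adj (a 1) d := by
        rcases hdom _ x1 with h | h
        · exfalso
          rcases hdom _ xn with h' | h'
          · have := dd 1 (n - 1) (by omega) (by omega) (by omega)
            rw [h, h', dist_self] at this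
            omega
          · have h1 := dist_eq_one_iff_adj.2 h'
            have := dd' 1 (n - 1) (by omega) (by omega) (by omega)
            rw [h, h1] at this
            omega
        · exact h
      have hdn : H'.Adj (a (n - 1)) d := by
        rcases hdom _ xn with h | h
        · exfalso
          have h1 := dist_eq_one_iff_adj.2 hd1
          have := dd 1 (n - 1) (by omega) (by omega) (by omega)
          rw [h, h1] at this
          omega
        · exact h
      have d1 : ∀ w, _ := fun w => d_adj hc' hd1 w
      have dn : ∀ w, _ := fun w => d_adj hc' hdn w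
      have PAH := fun j => (PAB hc' hs' j).1
      have PBH := fun j => (PAB hc' hs' j).2
      have k1 : H'.Adj d (a 2) := by
        have hne : d ≠ a 2 := by
          rintro h
          rw [h, ea 2 (by omega) (by omega), ← f0] at hd
          have h1 := dist_eq_one_iff_adj.2 hd
          have h2 := hJ.dist_eq 0 2 (by omega) (by omega)
          omega
        have := aadj 1 (by omega) (by omega)
        rcases Nat.even_or_odd' n with ⟨h, hh | hh⟩
        · have q1 := dd' 1 (1 + h) (by omega) (by omega) (by omega)
          have q2 := dd' 2 (1 + h) (by omega) (by omega) (by omega)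
          have q3 := dd (1 + h) (n - 1) (by omega) (by omega) (by omega)
          have q4 := d1 (a (1 + h))
          have q5 := dn (a (1 + h))
          rcases PAH h (a (1 + h)) (a 1) d (a 2) hd1 this (by omega) (by omega) (by omega)
            with h' | h'
          · exact absurd h' hne
          · exact h'
        · have q1 := dd 1 (1 + h) (by omega) (by omega) (by omega)
          have q1' := dd 1 (2 + h) (by omega) (by omega) (by omega)
          have q2 := dd 2 (1 + h) (by omega) (by omega) (by omega)
          have q3 := dd (2 + h) (n - 1) (by omega) (by omega) (by omega)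
          have q4 := d1 (a (2 + h))
          have q5 := dn (a (2 + h))
          have q6 : H'.dist d (a (2 + h)) = H'.dist (a (2 + h)) d := dist_comm
          have q7 : H'.dist (a 1) (a (2 + h)) = H'.dist (a (2 + h)) (a 1) := dist_comm
          have q8 := aadj (1 + h) (by omega) (by omega)
          have q9 : 1 + h + 1 = 2 + h := by omega
          rw [q9] at q8
          rcases odd_step hc' hs' h (fun k _ => PAH k) (fun k _ => PBH k) (a 1) (a (1 + h))
            (a (2 + h)) (a 2) d q8 (by omega) (by omega) this hd1 (by omega) (by omega)
            with h' | h'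
          · exact absurd h'.symm hne
          · exact h'.symm
      have k2 : H'.Adj d (a (n - 2)) := by
        have hne : d ≠ a (n - 2) := by
          rintro h
          rw [h, ea (n - 2) (by omega) (by omega), ← f0] at hd
          have h1 := dist_eq_one_iff_adj.2 hd
          have h2 := hJ.dist_eq 0 (n - 2) (by omega) (by omega)
          omega
        have := aadj (n - 2) (by omega) (by omega)
        have e' : n - 2 + 1 = n - 1 := by omega
        rw [e'] at this
        rcases Nat.even_or_odd' n with ⟨h, hh | hh⟩
        · have q1 := dd (h - 1) (n - 1) (by omega) (by omega) (by omega)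
          have q2 := dd (h - 1) (n - 2) (by omega) (by omega) (by omega)
          have q3 := dd' 1 (h - 1) (by omega) (by omega) (by omega)
          have q4 := d1 (a (h - 1))
          have q5 := dn (a (h - 1))
          rcases PAH h (a (h - 1)) (a (n - 1)) d (a (n - 2)) hdn this.symm (by omega) (by omega)
            (by omega) with h' | h'
          · exact absurd h' hne
          · exact h'
        · have q1 := dd' h (n - 1) (by omega) (by omega) (by omega)
          have q1' := dd' (h - 1) (n - 1) (by omega) (by omega) (by omega)
          have q2 := dd' h (n - 2) (by omega) (by omega) (by omega)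
          have q3 := dd' 1 (h - 1) (by omega) (by omega) (by omega)
          have q4 := d1 (a (h - 1))
          have q5 := dn (a (h - 1))
          have q6 : H'.dist d (a (h - 1)) = H'.dist (a (h - 1)) d := dist_comm
          have q7 : H'.dist (a (n - 1)) (a (h - 1)) = H'.dist (a (h - 1)) (a (n - 1)) := dist_comm
          have q8 := aadj (h - 1) (by omega) (by omega)
          have q9 : h - 1 + 1 = h := by omega
          rw [q9] at q8
          rcases odd_step hc' hs' h (fun k _ => PAH k) (fun k _ => PBH k) (a (n - 1)) (a h)
            (a (h - 1)) (a (n - 2)) d q8.symm (by omega) (by omega) this.symm hdn (by omega)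
            (by omega) with h' | h'
          · exact absurd h'.symm hne
          · exact h'.symm
      have k3 := dd 2 (n - 2) (by omega) (by omega) (by omega)
      have k4 := d_adj hc' k2 (a 2)
      have k5 := dist_eq_one_iff_adj.2 k1.symm
      rcases Nat.lt_or_ge 6 n with hn7 | hn7
      · omega
      · have hn6' : n = 6 := by omega
        subst hn6'
        have hne3 : d ≠ a 3 := by
          rintro h
          rw [h, ea 3 (by omega) (by omega), ← f0] at hd
          have h1 := dist_eq_one_iff_adj.2 hd
          have h2 := hJ.dist_eq 0 3 (by omega) (by omega)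
          omega
        have hne24 : a 2 ≠ a 4 := by
          intro h
          have h2 := dd 2 4 (by omega) (by omega) (by omega)
          rw [h, dist_self] at h2
          omega
        rcases noC4 hs' k1 (aadj 2 (by omega) (by omega)) (aadj 3 (by omega) (by omega)) k2.symm
          hne3 hne24 with h | h
        · have h1 : H.Adj (e d) (e (a 3)) := (he _ _).1 h
          have h2 := hJ.dist_eq 0 3 (by omega) (by omega)
          have h3 := d_adj hconn h1 x
          have h4 := dist_eq_one_iff_adj.2 hd
          rw [f0] at h2
          rw [ea 3 (by omega) (by omega)] at h3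
          omega
        · have h' : H'.Adj (a 2) (a 4) := h
          have h1 := dist_eq_one_iff_adj.2 h'
          have h2 := dd 2 4 (by omega) (by omega) (by omega)
          rw [h1] at h2
          omega
  · push Not at hxc
    obtain ⟨i, j, hij, hj, hdk⟩ := hs' n (fun i => r (c i)) hn
      (by
        intro i _
        rw [he, er _ (hxc _), er _ (hxc _)]
        exact hI.adj i)
      (by
        have := hI.per 0
        rw [Nat.zero_add] at this
        rw [this])
      (by
        intro i hi j hj h
        have h1 : c i = c j := by
          rw [← er _ (hxc i), ← er _ (hxc j), h]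
        rcases Nat.lt_trichotomy i j with h2 | h2 | h2
        · have := hI.dist_eq i j (by omega) (by omega)
          rw [h1, dist_self] at this
          omega
        · exact h2
        · have := hI.dist_eq j i (by omega) (by omega)
          rw [h1, dist_self] at this
          omega)
    rw [hiso, er _ (hxc _), er _ (hxc _)] at hdk
    have := hI.dist_eq i j hij (by omega)
    omega

end Pool.Agent.X283.BRG
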