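import Pool.Agent.X283.BRG.Cyc

set_option autoImplicit false

namespace Pool.Agent.X283.BRG

open SimpleGraph

universe u

variable {V : Type u}

/-- Two neighbours of `z` that are closer to `u` are equal or adjacent. -/
def PA (G : SimpleGraph V) (j : ℕ) : Prop :=
  ∀ u z a b, G.Adj z a → G.Adj z b → G.dist u z = j → G.dist u a + 1 = j → G.dist u b + 1 = j →
    a = b ∨ G.Adj a b

/-- The triangle condition. -/
def PB (G : SimpleGraph V) (j : ℕ) : Prop :=
  ∀ u x y, G.Adj x y → G.dist u x = j → G.dist u y = j →
    ∃ w, G.Adj w x ∧ G.Adj w y ∧ G.dist u w + 1 = j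

theorem d_adj {G : SimpleGraph V} (hc : G.Connected) {a b : V} (h : G.Adj a b) (u : V) :
    G.dist u a ≤ G.dist u b + 1 ∧ G.dist u b ≤ G.dist u a + 1 := by
  have h1 := dist_eq_one_iff_adj.2 h
  have h2 := hc.dist_triangle (u := u) (v := b) (w := a)
  have h3 := hc.dist_triangle (u := u) (v := a) (w := b)
  rw [dist_comm (u := b) (v := a)] at h2
  omega

/-- a neighbour of `x` towards `y` -/
theorem toward {G : SimpleGraph V} (hc : G.Connected) {x y : V} (h : x ≠ y) :
    ∃ q, G.Adj x q ∧ G.dist q y + 1 = G.dist x y := by
  obtain ⟨w, hw⟩ := hc.exists_walk_length_eq_dist x y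
  cases w with
  | nil => exact absurd rfl h
  | cons hq p =>
    rename_i q
    refine ⟨q, hq, ?_⟩
    have h1 := dist_le p
    rw [Walk.length_cons] at hw
    have h2 := (d_adj hc hq y).1
    rw [dist_comm (u := y) (v := x), dist_comm (u := y) (v := q)] at h2
    omega

theorem valley {G : SimpleGraph V} (hc : G.Connected) {n : ℕ} (u : V)
    (hA : ∀ i, 2 * i < n → PA G i) (hB : ∀ i, 2 * i + 1 < n → PB G i) :
    ∀ (δ : ℕ) (x y : V), G.dist x y = δ → 1 ≤ δ → G.dist u x + G.dist u y + δ < n →
      (∃ q, G.Adj x q ∧ G.dist q y + 1 = δ ∧ G.dist u q + 1 = G.dist u x) ∨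
      (∃ q, G.Adj y q ∧ G.dist q x + 1 = δ ∧ G.dist u q + 1 = G.dist u y) ∨
      (G.dist u x = G.dist u y ∧ ∃ q, G.Adj x q ∧ G.dist q y + 1 = δ ∧
        G.dist u q = G.dist u x) := by
  intro δ
  induction δ with
  | zero => intro x y _ h; omega
  | succ δ ih =>
    intro x y hxy _ hn
    have hne : x ≠ y := by
      rintro rfl
      simp at hxy
    obtain ⟨q, hq, hqy⟩ := toward hc hne
    rcases Nat.eq_zero_or_pos δ with h0 | hpos
    · -- adjacent
      subst h0
      have hadj : G.Adj x y := by
        rw [← dist_eq_one_iff_adj]; omega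
      obtain ⟨h1, h2⟩ := d_adj hc hadj u
      rcases Nat.lt_trichotomy (G.dist u x) (G.dist u y) with hlt | heq | hgt
      · right; left
        exact ⟨x, hadj.symm, by simp, by omega⟩
      · right; right
        exact ⟨heq, y, hadj, by simp, heq.symm⟩
      · left
        exact ⟨y, hadj, by simp, by omega⟩
    · obtain ⟨h1, h2⟩ := d_adj hc hq u
      have hcy : G.dist u y = G.dist y u := dist_comm
      -- the case of a neighbour at the same height
      have same : ∀ q, G.Adj x q → G.dist q y + 1 = δ + 1 → G.dist u q = G.dist u x →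
          (∃ q, G.Adj x q ∧ G.dist q y + 1 = δ + 1 ∧ G.dist u q + 1 = G.dist u x) ∨
          (∃ q, G.Adj y q ∧ G.dist q x + 1 = δ + 1 ∧ G.dist u q + 1 = G.dist u y) ∨
          (G.dist u x = G.dist u y ∧ ∃ q, G.Adj x q ∧ G.dist q y + 1 = δ + 1 ∧
            G.dist u q = G.dist u x) := by
        intro q hq hqy hh
        rcases ih q y (by omega) hpos (by omega) with ⟨r, hqr, hry, hr⟩ | ⟨r, hyr, hrq, hr⟩ |
          ⟨heq, -⟩
        · left
          have t1 := hc.dist_triangle (u := u) (v := y) (w := q)
          rw [dist_comm (u := y) (v := q)] at t1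
          obtain ⟨w, hwx, hwq, hw⟩ := hB (G.dist u x) (by omega) u x q hq rfl hh
          have hwr := hA (G.dist u q) (by omega) u q w r hwq.symm hqr rfl (by omega) (by omega)
          refine ⟨w, hwx.symm, ?_, hw⟩
          have t2 := (d_adj hc hwx y)
          rw [dist_comm (u := y) (v := w), dist_comm (u := y) (v := x)] at t2
          rcases hwr with rfl | hwr
          · omega
          · have t3 := (d_adj hc hwr y)
            rw [dist_comm (u := y) (v := w), dist_comm (u := y) (v := r)] at t3
            omega
        · right; left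
          refine ⟨r, hyr, ?_, hr⟩
          have t2 := (d_adj hc hq r)
          have t3 := (d_adj hc hyr x)
          rw [dist_comm (u := r) (v := x), dist_comm (u := r) (v := q)] at t2
          rw [dist_comm (u := q) (v := r)] at t2
          rw [dist_comm (u := x) (v := r)] at t3 t2
          omega
        · right; right
          exact ⟨by omega, q, hq, hqy, hh⟩
      rcases Nat.lt_trichotomy (G.dist u q) (G.dist u x) with hlt | heq | hgt
      · left
        exact ⟨q, hq, by omega, by omega⟩
      · exact same q hq (by omega) heq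
      · have t1 := hc.dist_triangle (u := u) (v := y) (w := q)
        rw [dist_comm (u := y) (v := q)] at t1
        rcases ih q y (by omega) hpos (by omega) with ⟨r, hqr, hry, hr⟩ | ⟨r, hyr, hrq, hr⟩ |
          ⟨heq, r, hqr, hry, hr⟩
        · exfalso
          have hwr := hA (G.dist u q) (by omega) u q x r hq.symm hqr rfl (by omega) (by omega)
          rcases hwr with rfl | hwr
          · omega
          · have t3 := (d_adj hc hwr y)
            rw [dist_comm (u := y) (v := x), dist_comm (u := y) (v := r)] at t3
            omega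
        · right; left
          refine ⟨r, hyr, ?_, hr⟩
          have t2 := (d_adj hc hq r)
          have t3 := (d_adj hc hyr x)
          rw [dist_comm (u := r) (v := x), dist_comm (u := r) (v := q)] at t2
          rw [dist_comm (u := q) (v := r)] at t2
          rw [dist_comm (u := x) (v := r)] at t3 t2
          omega
        · have t4 := hc.dist_triangle (u := u) (v := y) (w := r)
          rw [dist_comm (u := y) (v := r)] at t4
          obtain ⟨w, hwq, hwr, hw⟩ := hB (G.dist u q) (by omega) u q r hqr rfl (by omega)
          have hxw := hA (G.dist u q) (by omega) u q x w hq.symm hwq.symm rfl (by omega) (by omega)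
          have t5 := d_adj hc hwr y
          rw [dist_comm (u := y) (v := w), dist_comm (u := y) (v := r)] at t5
          rcases hxw with rfl | hxw
          · omega
          · have t6 := d_adj hc hxw y
            rw [dist_comm (u := y) (v := w), dist_comm (u := y) (v := x)] at t6
            exact same w hxw (by omega) (by omega)

/-- The core of the argument. -/
theorem core {G : SimpleGraph V} (hc : G.Connected) {n l : ℕ} {u z1 z2 : V}
    (hA : ∀ i, 2 * i < n → PA G i) (hB : ∀ i, 2 * i + 1 < n → PB G i)
    (h1 : G.dist u z1 = l) (h2 : G.dist u z2 = l)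
    (hd : ∀ w, G.dist u w + G.dist w z1 = l → G.dist u w + G.dist w z2 = l → w = u)
    (hs : ∃ x y, 1 ≤ G.dist u x ∧ 1 ≤ G.dist u y ∧ G.dist u x + G.dist x z1 = l ∧
      G.dist u y + G.dist y z2 = l ∧ G.dist x y < G.dist u x + G.dist u y ∧
      G.dist x y + G.dist u x + G.dist u y < n) :
    ∃ x y, G.dist u x = 1 ∧ G.dist u y = 1 ∧ G.dist x z1 + 1 = l ∧ G.dist y z2 + 1 = l ∧
      G.Adj x y := by
  classical
  let P : ℕ → Prop := fun δ => ∃ x y, 1 ≤ G.dist u x ∧ 1 ≤ G.dist u y ∧
      G.dist u x + G.dist x z1 = l ∧
      G.dist u y + G.dist y z2 = l ∧ G.dist x y < G.dist u x + G.dist u y ∧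
      G.dist x y + G.dist u x + G.dist u y < n ∧ G.dist x y = δ
  have hP : ∃ δ, P δ := by
    obtain ⟨x, y, a1, a2, a3, a4, a5, a6⟩ := hs
    exact ⟨_, x, y, a1, a2, a3, a4, a5, a6, rfl⟩
  have hmin := fun m => Nat.find_min hP (m := m)
  obtain ⟨x, y, x1, y1, xz, yz, s1, s2, hδ⟩ := Nat.find_spec hP
  set δ := Nat.find hP with hδdef
  -- generic helper facts about pairs of minimal distance
  have hzero : ∀ {a b : V}, G.dist a b = 0 → a = b := fun h => (hc.dist_eq_zero_iff).1 h
  have noStepX : ∀ x y, 1 ≤ G.dist u x → 1 ≤ G.dist u y → G.dist u x + G.dist x z1 = l →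
      G.dist u y + G.dist y z2 = l → G.dist x y < G.dist u x + G.dist u y →
      G.dist x y + G.dist u x + G.dist u y < n → G.dist x y = δ →
      ∀ q, G.Adj x q → G.dist q y + 1 = δ → G.dist u q + 1 = G.dist u x → False := by
    intro x y x1 y1 xz yz s1 s2 hδ q hxq hqy hq
    have t1 := d_adj hc hxq z1
    rw [dist_comm (u := z1) (v := x), dist_comm (u := z1) (v := q)] at t1
    have t2 := hc.dist_triangle (u := u) (v := q) (w := z1)
    rcases Nat.eq_zero_or_pos (G.dist u q) with h0 | hp
    · have := hzero h0
      subst this
      omega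
    · exact hmin (G.dist q y) (by omega)
        ⟨q, y, by omega, by omega, by omega, by omega, by omega, by omega, rfl⟩
  have noStepY : ∀ x y, 1 ≤ G.dist u x → 1 ≤ G.dist u y → G.dist u x + G.dist x z1 = l →
      G.dist u y + G.dist y z2 = l → G.dist x y < G.dist u x + G.dist u y →
      G.dist x y + G.dist u x + G.dist u y < n → G.dist x y = δ →
      ∀ q, G.Adj y q → G.dist q x + 1 = δ → G.dist u q + 1 = G.dist u y → False := by
    intro x y x1 y1 xz yz s1 s2 hδ q hyq hqx hq
    have t1 := d_adj hc hyq z2
    rw [dist_comm (u := z2) (v := y), dist_comm (u := z2) (v := q)] at t1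
    have t2 := hc.dist_triangle (u := u) (v := q) (w := z2)
    have e1 : G.dist q x = G.dist x q := dist_comm
    rcases Nat.eq_zero_or_pos (G.dist u q) with h0 | hp
    · have := hzero h0
      subst this
      omega
    · exact hmin (G.dist x q) (by omega)
        ⟨x, q, by omega, by omega, by omega, by omega, by omega, by omega, rfl⟩
  have hpos : 1 ≤ δ := by
    rcases Nat.eq_zero_or_pos δ with h0 | hp
    · exfalso
      have : x = y := hzero (by omega)
      subst this
      have := hd x xz yz
      subst this
      simp at x1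
    · exact hp
  rcases valley hc u hA hB δ x y hδ hpos (by omega) with ⟨q, a1, a2, a3⟩ | ⟨q, a1, a2, a3⟩ |
    ⟨heq, q, a1, a2, a3⟩
  · exact (noStepX x y x1 y1 xz yz s1 s2 hδ q a1 a2 a3).elim
  · exact (noStepY x y x1 y1 xz yz s1 s2 hδ q a1 a2 a3).elim
  · rcases Nat.lt_or_ge δ 2 with hlt | hge
    · -- `δ = 1`
      have hqy : q = y := hzero (by omega)
      subst hqy
      obtain ⟨w, hwx, hwy, hw⟩ := hB (G.dist u x) (by omega) u x q a1 rfl a3
      have t1 := d_adj hc hwx z1
      rw [dist_comm (u := z1) (v := w), dist_comm (u := z1) (v := x)] at t1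
      have t2 := hc.dist_triangle (u := u) (v := w) (w := z1)
      have t3 := d_adj hc hwy z2
      rw [dist_comm (u := z2) (v := w), dist_comm (u := z2) (v := q)] at t3
      have t4 := hc.dist_triangle (u := u) (v := w) (w := z2)
      have hwu := hd w (by omega) (by omega)
      subst hwu
      rw [dist_self] at hw
      exact ⟨x, q, by omega, by omega, by omega, by omega, a1⟩
    · exfalso
      obtain ⟨w, hwx, hwq, hw⟩ := hB (G.dist u x) (by omega) u x q a1 rfl a3
      have t1 := d_adj hc hwx z1
      rw [dist_comm (u := z1) (v := w), dist_comm (u := z1) (v := x)] at t1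
      have t2 := hc.dist_triangle (u := u) (v := w) (w := z1)
      have t3 := d_adj hc hwq y
      rw [dist_comm (u := y) (v := w), dist_comm (u := y) (v := q)] at t3
      have t4 := d_adj hc hwx y
      rw [dist_comm (u := y) (v := w), dist_comm (u := y) (v := x)] at t4
      have hw1 : 1 ≤ G.dist u w := by omega
      have hwle : G.dist w y ≤ δ := by omega
      rcases Nat.lt_or_ge δ (G.dist u w + G.dist u y) with hsh | hsh
      · -- `(w, y)` is a shortcut
        rcases Nat.lt_or_ge (G.dist w y) δ with hl | hg
        · exact hmin _ hl ⟨w, y, by omega, by omega, by omega, by omega, by omega, by omega, rfl⟩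
        · have hwd : G.dist w y = δ := by omega
          rcases valley hc u hA hB δ w y hwd hpos (by omega) with ⟨q', b1, b2, b3⟩ |
            ⟨q', b1, b2, b3⟩ | ⟨heq', -⟩
          · exact noStepX w y (by omega) y1 (by omega) yz (by omega) (by omega) hwd q' b1 b2 b3
          · exact noStepY w y (by omega) y1 (by omega) yz (by omega) (by omega) hwd q' b1 b2 b3
          · omega
      · -- `δ = 2 α - 1`
        rcases Nat.lt_or_ge (G.dist w y) δ with hl | hg
        · exact hmin _ hl ⟨w, y, by omega, by omega, by omega, by omega, by omega, by omega, rfl⟩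
        · have hwd : G.dist w y = δ := by omega
          -- a neighbour of `w` towards `u`
          have hwu : w ≠ u := by
            rintro rfl
            simp at hw1
          obtain ⟨v, hwv, hv⟩ := toward hc hwu
          have e1 : G.dist v u = G.dist u v := dist_comm
          have e2 : G.dist w u = G.dist u w := dist_comm
          have t5 := hc.dist_triangle (u := v) (v := u) (w := y)
          have t6 := d_adj hc hwv y
          rw [dist_comm (u := y) (v := w), dist_comm (u := y) (v := v)] at t6
          have e3 : G.dist y w = G.dist w y := dist_comm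
          have e4 : G.dist y v = G.dist v y := dist_comm
          have e5 : G.dist y q = G.dist q y := dist_comm
          have := hA δ (by omega) y w v q hwv hwq (by omega) (by omega) (by omega)
          rcases this with rfl | this
          · omega
          · have t7 := d_adj hc this u
            omega

end Pool.Agent.X283.BRG
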